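import Pool.Graph.R_seed8.Results.MP_86f51d_al.AlmostNoneEmbed

/-!
# Elements of a group which commute like the generators of the right-angled Artin group of the
complement of the spider (MP_86f51d_al)

`no_embedding_gen` is the library theorem `no_embedding` with the right-angled Artin group replaced
by an arbitrary group which contains suitable elements; the proof is the same.
-/

set_option autoImplicit false

namespace Pool.Agent.KS6_76.DGV

open H540DG Pool.Agent.W391 Pool.Agent.H599R3.RH Pool.Agent.H599R3.SV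
open scoped commutatorElement

theorem no_embedding_gen {G₀ : Type} [Group G₀] (a : SpV 27 → G₀)
    (hcomm : ∀ u v, (Gam 27).Adj u v → a u * a v = a v * a u)
    (hne : ∀ {X : Fin 27 → Set ℕ} {n : ℕ} {T : G₀} {Z : Set ℕ},
      Tr (fun i => ⁅a (.x i), a (.y i)⁆) (a .c) X n T Z → T ≠ 1)
    {A : Type} {P : Pres A} {w : List A} (φ : G₀ →* U P)
    (hφw : ∀ t, Pi w (φ t) w) (hφ : Function.Injective φ) : False := by
  have hcm : ∀ u v, (Gam 27).Adj u v → φ (a u) * φ (a v) =
      φ (a v) * φ (a u) := by
    intro u v h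
    rw [← map_mul, ← map_mul, hcomm u v h]
  obtain ⟨g, W, Y, h1, h2, h3, h4, h5⟩ := exists_good (W := w)
    (fun i : Fin 27 => φ (a (.y i))) (fun i => hφw _) (by
      intro i j
      by_cases hij : i = j
      · rw [hij]
      · exact hcm _ _ (adj_yy hij))
  -- the conjugated homomorphism
  set ψ : G₀ →* U P := (MulAut.conj g⁻¹).toMonoidHom.comp φ with hψ
  have hψa : ∀ t, ψ t = g⁻¹ * φ t * g := by
    intro t
    rw [hψ, MonoidHom.comp_apply]
    change MulAut.conj g⁻¹ (φ t) = _
    rw [MulAut.conj_apply, inv_inv]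
  have hψi : Function.Injective ψ := by
    intro s t hst
    rw [hψa, hψa] at hst
    exact hφ (mul_left_cancel (mul_right_cancel hst))
  have hψW : ∀ t, Pi W (ψ t) W := by
    intro t
    rw [hψa]
    exact (h1.symm.trans (hφw t)).trans h1
  have hcm' : ∀ u v, (Gam 27).Adj u v → ψ (a u) * ψ (a v) =
      ψ (a v) * ψ (a u) := by
    intro u v h
    rw [← map_mul, ← map_mul, hcomm u v h]
  have D : Dat P W (Fin 27) (fun i => ψ (a (.x i))) (fun i => ψ (a (.y i)))
      (ψ (a .c)) Y := by
    refine ⟨h2, h3, fun i => hψW _, fun i => hψW _, hψW _, ?_, ?_, ?_, ?_, ?_, ?_⟩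
    · intro i H hH
      rw [hψa] at hH
      exact h4 i H hH
    · intro i
      rw [hψa]
      apply h5
      intro j
      by_cases hij : i = j
      · rw [hij]
      · exact hcm _ _ (adj_yy hij)
    · rw [hψa]
      apply h5
      intro j
      exact hcm _ _ (adj_cy j)
    · intro i j
      by_cases hij : i = j
      · rw [hij]
      · exact hcm' _ _ (adj_yy hij)
    · intro i
      exact hcm' _ _ (adj_cy i)
    · intro i j hij
      exact hcm' _ _ (adj_xy hij)
  refine kill (G := G₀) (ξ := fun i => ⁅a (.x i), a (.y i)⁆) (c := a .c) (S := sys P W)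
    (C := Dat.C W (ψ (a .c)))
    (X := Dat.X W (fun i => ψ (a (.x i))) (fun i => ψ (a (.y i))) (ψ (a .c)))
    (φ := ψ) Dat.bd D.gd ?_ ?_ (Equiv.refl _) D.priv (priv_mult Dat.bd D.priv) ?_ hψi
  · intro i
    have := D.sup i
    rw [map_commutatorElement]
    exact this
  · intro a' ha b hb hab hbW k hk
    exact conj_GI hab.le hb.1 (hψW _) ha.2 hb.2 hk
  · intro n T Z h
    exact hne h

end Pool.Agent.KS6_76.DGV
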