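import Pool.Graph.R_seed8.W391.Raag

/-!
# Iterated commutators of powers of the generators of a right-angled Artin group (MP_86f51d_al)

This follows `Pool.Graph.R_seed8.W391.Raag`, with `N`-th powers of the generators in place of the
generators, and another finite simple group in place of the alternating group of degree five.
-/

set_option autoImplicit false

namespace Pool.Agent.KS6_76.DGV

open Pool.Agent.W391
open scoped commutatorElement

/-! ## The finite group -/

/-- an alternating group of large odd degree -/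
abbrev KN (N : ℕ) : Type := alternatingGroup (Fin (2 * N + 5))

/-- a cycle of length `2 N + 5` -/
def tN (N : ℕ) : KN N := ⟨finRotate (2 * N + 5), by
  rw [Equiv.Perm.mem_alternatingGroup, show 2 * N + 5 = (2 * N + 4) + 1 from rfl, sign_finRotate]
  exact Even.neg_one_pow ⟨N + 2, by omega⟩⟩

theorem tN_pow {N : ℕ} (hN : 0 < N) : tN N ^ N ≠ 1 := by
  intro h
  have h1 : (finRotate (2 * N + 5)) ^ N = 1 := by
    have := congrArg Subtype.val h
    exact this
  have h2 : orderOf (finRotate (2 * N + 5)) = 2 * N + 5 := by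
    rw [(isCycle_finRotate (n := 2 * N + 3)).orderOf, support_finRotate]
    simp
  have h3 := orderOf_dvd_of_pow_eq_one h1
  rw [h2] at h3
  have := Nat.le_of_dvd hN h3
  omega

theorem exists_conjN {N : ℕ} {u v : KN N} (hu : u ≠ 1) (hv : v ≠ 1) :
    ∃ g : KN N, ⁅u, g * v * g⁻¹⁆ ≠ 1 := by
  by_contra hcon
  push Not at hcon
  have : IsSimpleGroup (KN N) := alternatingGroup.isSimpleGroup (by simp)
  have h1 : Subgroup.normalClosure {v} = ⊤ := by
    rcases (Subgroup.normalClosure_normal (s := {v})).eq_bot_or_eq_top with h | h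
    · exfalso
      apply hv
      have : v ∈ Subgroup.normalClosure {v} := Subgroup.subset_normalClosure rfl
      rw [h, Subgroup.mem_bot] at this
      exact this
    · exact h
  have h2 : Subgroup.normalClosure {v} ≤ Subgroup.centralizer {u} := by
    unfold Subgroup.normalClosure
    rw [Subgroup.closure_le]
    intro w hw
    rw [Group.mem_conjugatesOfSet_iff] at hw
    obtain ⟨a, ha, hw⟩ := hw
    rw [Set.mem_singleton_iff] at ha
    subst ha
    obtain ⟨g, rfl⟩ := isConj_iff.1 hw
    rw [SetLike.mem_coe, Subgroup.mem_centralizer_iff]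
    intro b hb
    rw [Set.mem_singleton_iff] at hb
    subst hb
    exact commutatorElement_eq_one_iff_mul_comm.1 (hcon g)
  rw [h1] at h2
  have h3 : u ∈ Subgroup.center (KN N) := by
    rw [Subgroup.mem_center_iff]
    intro g
    have := h2 (Subgroup.mem_top g)
    rw [Subgroup.mem_centralizer_iff] at this
    exact (this u rfl).symm
  have h4 : Subgroup.center (KN N) = ⊥ :=
    alternatingGroup.center_eq_bot (by simp)
  rw [h4, Subgroup.mem_bot] at h3
  exact hu h3

/-! ## The test homomorphisms -/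

variable {d : ℕ} {N : ℕ}

/-- the acting group -/
abbrev QN (N d : ℕ) : Type := Multiplicative (ℤ × (Fin d → ZMod (N + 1)))

/-- base functions -/
def fN (θ : ℤ → Fin d × KN N) (i : Fin d) (q : QN N d) : KN N :=
  if (θ q.toAdd.1).1 = i ∧ q.toAdd.2 i = 0 then (θ q.toAdd.1).2 else 1

/-- images of the vertices -/
def vN (θ : ℤ → Fin d × KN N) : SpV d → KN N ≀ᵣ QN N d
  | .c => ⟨1, Multiplicative.ofAdd (1, 0)⟩
  | .x i => ⟨fN θ i, 1⟩
  | .y i => ⟨1, Multiplicative.ofAdd (0, Pi.single i 1)⟩

theorem vN_comm (θ : ℤ → Fin d × KN N) (u v : SpV d) (h : (Gam d).Adj u v) :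
    vN θ u * vN θ v = vN θ v * vN θ u := by
  rw [SimpleGraph.compl_adj, spider_iff] at h
  obtain ⟨hne, h⟩ := h
  -- the pairs of generators of the acting group
  have key : ∀ i j : Fin d, i ≠ j → vN θ (.x i) * vN θ (.y j) = vN θ (.y j) * vN θ (.x i) := by
    intro i j hij
    apply RegularWreathProduct.ext
    · funext q
      simp only [vN, RegularWreathProduct.mul_left, Pi.mul_apply, Pi.one_apply, mul_one, one_mul]
      unfold fN
      simp only [toAdd_mul, toAdd_inv, toAdd_ofAdd, Prod.fst_add, Prod.fst_neg,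
        Prod.snd_add, Prod.snd_neg, neg_zero, zero_add, Pi.add_apply, Pi.neg_apply,
        Pi.single_eq_of_ne hij]
    · simp only [vN, RegularWreathProduct.mul_right, one_mul, mul_one]
  rcases u with _ | i | i
  · rcases v with _ | j | j
    · exact absurd rfl hne
    · exfalso; apply h; simp
    · apply RegularWreathProduct.ext
      · rfl
      · exact mul_comm _ _
  · rcases v with _ | j | j
    · exfalso; apply h; simp
    · have hij : i ≠ j := by rintro rfl; exact hne rfl
      apply RegularWreathProduct.ext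
      · funext q
        simp only [vN, RegularWreathProduct.mul_left, Pi.mul_apply, inv_one, one_mul]
        unfold fN
        by_cases h1 : (θ q.toAdd.1).1 = i ∧ q.toAdd.2 i = 0
        · have h2 : ¬ ((θ q.toAdd.1).1 = j ∧ q.toAdd.2 j = 0) := by
            rintro ⟨h3, -⟩
            exact hij (h1.1.symm.trans h3)
          rw [if_pos h1, if_neg h2, one_mul, mul_one]
        · rw [if_neg h1, one_mul, mul_one]
      · rfl
    · have hij : i ≠ j := by
        rintro rfl
        apply h; simp
      exact key i j hij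
  · rcases v with _ | j | j
    · apply RegularWreathProduct.ext
      · rfl
      · exact mul_comm _ _
    · have hij : j ≠ i := by
        rintro rfl
        apply h; simp
      exact (key j i hij).symm
    · apply RegularWreathProduct.ext
      · rfl
      · exact mul_comm _ _

/-- the test homomorphisms -/
noncomputable def PsiN (θ : ℤ → Fin d × KN N) : RAAG (Gam d) →* KN N ≀ᵣ QN N d :=
  rlift (vN θ) (vN_comm θ)

theorem pow_right (q : QN N d) (n : ℕ) :
    (RegularWreathProduct.mk (D := KN N) (Q := QN N d) 1 q) ^ n = ⟨1, q ^ n⟩ := by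
  induction n with
  | zero => rw [pow_zero, pow_zero]; rfl
  | succ n ih =>
    rw [pow_succ, ih, pow_succ]
    apply RegularWreathProduct.ext
    · funext q
      simp only [RegularWreathProduct.mul_left, Pi.mul_apply, Pi.one_apply, mul_one]
    · simp only [RegularWreathProduct.mul_right]

theorem pow_left (f : QN N d → KN N) (n : ℕ) :
    (RegularWreathProduct.mk (D := KN N) (Q := QN N d) f 1) ^ n = ⟨f ^ n, 1⟩ := by
  induction n with
  | zero => rw [pow_zero, pow_zero]; rfl
  | succ n ih =>
    rw [pow_succ, ih, pow_succ]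
    apply RegularWreathProduct.ext
    · funext q
      simp only [RegularWreathProduct.mul_left, Pi.mul_apply, inv_one, one_mul]
    · simp only [RegularWreathProduct.mul_right, mul_one]

/-- the powers of the generators -/
def gN (d N : ℕ) (v : SpV d) : RAAG (Gam d) := rgen (Gam d) v ^ N

/-- the commutators of powers of knees and feet -/
def xiN (d N : ℕ) (i : Fin d) : RAAG (Gam d) := ⁅gN d N (.x i), gN d N (.y i)⁆

theorem PsiN_c_pow (θ : ℤ → Fin d × KN N) (n : ℕ) :
    PsiN θ (gN d N .c ^ n) = ⟨1, Multiplicative.ofAdd ((N : ℤ) * n, 0)⟩ := by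
  have h : PsiN θ (rgen (Gam d) .c) = ⟨1, Multiplicative.ofAdd (1, 0)⟩ := by
    unfold PsiN
    rw [rlift_rgen]; rfl
  rw [gN, ← pow_mul, map_pow, h, pow_right, ← ofAdd_nsmul]
  congr 2
  apply Prod.ext
  · simp
  · simp

/-- representation of an iterated commutator by a function on windows -/
def RepN (N n : ℕ) (T : RAAG (Gam d)) : Prop :=
  ∃ Φ : (ℕ → Fin d × KN N) → KN N,
    (∀ ϑ ϑ' : ℕ → Fin d × KN N, (∀ k < n, ϑ k = ϑ' k) → Φ ϑ = Φ ϑ') ∧
    (∀ (g : KN N) (ϑ : ℕ → Fin d × KN N),
      Φ (fun k => ((ϑ k).1, g * (ϑ k).2 * g⁻¹)) = g * Φ ϑ * g⁻¹) ∧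
    (∃ ϑ, Φ ϑ ≠ 1) ∧
    ∀ θ : ℤ → Fin d × KN N, (PsiN θ T).right = 1 ∧
      ∀ p : ℤ, (PsiN θ T).left (Multiplicative.ofAdd (p, 0)) = Φ (fun k => θ (p - N * k))

theorem repN_base (hN : 0 < N) (i : Fin d) : RepN N 1 (xiN d N i) := by
  refine ⟨fun ϑ => if (ϑ 0).1 = i then (ϑ 0).2 ^ N else 1, ?_, ?_, ?_, ?_⟩
  · intro ϑ ϑ' h
    simp only [h 0 (by norm_num)]
  · intro g ϑ
    by_cases h : (ϑ 0).1 = i
    · simp [h, conj_pow]
    · simp [h]
  · refine ⟨fun _ => (i, tN N), ?_⟩
    simp only [if_true]
    exact tN_pow hN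
  · intro θ
    have h1 : PsiN θ (xiN d N i) = ⁅(⟨fN θ i ^ N, 1⟩ : KN N ≀ᵣ QN N d),
        ⟨1, Multiplicative.ofAdd (0, Pi.single i (N : ZMod (N + 1)))⟩⁆ := by
      unfold PsiN xiN gN
      rw [map_commutatorElement, map_pow, map_pow, rlift_rgen, rlift_rgen]
      simp only [vN]
      rw [pow_left, pow_right, ← ofAdd_nsmul]
      congr 4
      apply Prod.ext
      · simp
      · funext j
        by_cases hj : j = i
        · subst hj; simp
        · simp [Pi.single_eq_of_ne hj]
    rw [h1]
    constructor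
    · simp only [commutatorElement_def, RegularWreathProduct.mul_right,
        RegularWreathProduct.inv_right]
      rw [inv_one, one_mul, mul_one, mul_inv_cancel]
    · intro p
      simp only [commutatorElement_def, RegularWreathProduct.mul_left,
        RegularWreathProduct.mul_right, RegularWreathProduct.inv_right,
        RegularWreathProduct.inv_left, Pi.mul_apply, Pi.one_apply, Pi.inv_apply, Pi.pow_apply,
        inv_one, one_mul, mul_one]
      unfold fN
      simp only [toAdd_mul, toAdd_inv, toAdd_ofAdd, Prod.fst_add, Prod.fst_neg,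
        Prod.snd_add, Prod.snd_neg, neg_zero, zero_add, Pi.add_apply, Pi.neg_apply,
        Pi.single_eq_same, Pi.zero_apply, add_zero, and_true, Nat.cast_zero, mul_zero, sub_zero]
      have h2 : ¬ ((θ p).1 = i ∧ -(N : ZMod (N + 1)) = 0) := by
        rintro ⟨-, h⟩
        have h3 : ((N + 1 : ℕ) : ZMod (N + 1)) = 0 := ZMod.natCast_self _
        rw [neg_eq_zero] at h
        push_cast at h3
        rw [h, zero_add] at h3
        have : Nontrivial (ZMod (N + 1)) := by
          have : Fact (1 < N + 1) := ⟨by omega⟩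
          exact ZMod.nontrivial _
        exact one_ne_zero h3
      rw [if_neg h2, one_pow, inv_one, mul_one]
      by_cases h3 : (θ p).1 = i
      · rw [if_pos h3, if_pos h3]
      · rw [if_neg h3, if_neg h3, one_pow]

theorem repN_comm {n m : ℕ} {T T' : RAAG (Gam d)} (h : RepN N n T) (h' : RepN N m T') :
    RepN N (n + m) ⁅T, gN d N .c ^ n * T' * (gN d N .c ^ n)⁻¹⁆ := by
  obtain ⟨Φ, h1, h2, ⟨ϑ1, h3⟩, h4⟩ := h
  obtain ⟨Φ', h1', h2', ⟨ϑ2, h3'⟩, h4'⟩ := h'
  refine ⟨fun ϑ => ⁅Φ ϑ, Φ' (fun k => ϑ (n + k))⁆, ?_, ?_, ?_, ?_⟩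
  · intro ϑ ϑ' hk
    simp only
    rw [h1 ϑ ϑ' (fun k hk' => hk k (by omega)),
      h1' (fun k => ϑ (n + k)) (fun k => ϑ' (n + k)) (fun k hk' => hk _ (by omega))]
  · intro g ϑ
    simp only
    rw [h2 g ϑ, h2' g (fun k => ϑ (n + k))]
    simp only [commutatorElement_def]
    group
  · obtain ⟨g, hg⟩ := exists_conjN h3 h3'
    refine ⟨fun k => if k < n then ϑ1 k else ((ϑ2 (k - n)).1, g * (ϑ2 (k - n)).2 * g⁻¹), ?_⟩
    simp only
    rw [h1 _ ϑ1 (fun k hk => by rw [if_pos hk])]
    have e : (fun k => if n + k < n then ϑ1 (n + k) else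
        ((ϑ2 (n + k - n)).1, g * (ϑ2 (n + k - n)).2 * g⁻¹)) =
        fun k => ((ϑ2 k).1, g * (ϑ2 k).2 * g⁻¹) := by
      funext k
      rw [if_neg (by omega), Nat.add_sub_cancel_left]
    rw [e, h2']
    exact hg
  · intro θ
    obtain ⟨h5, h6⟩ := h4 θ
    obtain ⟨h5', h6'⟩ := h4' θ
    rw [map_commutatorElement, map_mul, map_mul, map_inv, PsiN_c_pow]
    constructor
    · simp only [commutatorElement_def, RegularWreathProduct.mul_right,
        RegularWreathProduct.inv_right, h5, h5']
      rw [inv_one, mul_one, mul_one, mul_inv_cancel, inv_one, one_mul, one_mul]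
    · intro p
      simp only [commutatorElement_def, RegularWreathProduct.mul_left,
        RegularWreathProduct.mul_right, RegularWreathProduct.inv_right,
        RegularWreathProduct.inv_left, Pi.mul_apply, Pi.one_apply, Pi.inv_apply, inv_one,
        one_mul, mul_one, h5, h5', mul_inv_cancel]
      have e1 : (Multiplicative.ofAdd ((N : ℤ) * n, (0 : Fin d → ZMod (N + 1))))⁻¹ *
          Multiplicative.ofAdd (p, 0) = Multiplicative.ofAdd (p - N * n, 0) := by
        rw [← ofAdd_neg, ← ofAdd_add]
        congr 1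
        apply Prod.ext
        · simp only [Prod.fst_add, Prod.fst_neg]; ring
        · simp
      rw [e1, h6, h6']
      have e2 : (fun k : ℕ => θ (p - N * n - N * k)) =
          fun k : ℕ => θ (p - N * ((n + k : ℕ) : ℤ)) := by
        funext k
        congr 1
        push_cast
        ring
      rw [e2]

theorem TrN.rep (hN : 0 < N) {X : Fin d → Set ℕ} {n : ℕ} {T : RAAG (Gam d)} {Z : Set ℕ}
    (h : Tr (xiN d N) (gN d N .c) X n T Z) : RepN N n T := by
  induction h with
  | base i => exact repN_base hN i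
  | comm _ _ ih ih' => exact repN_comm ih ih'

theorem RepN.ne (hN : 0 < N) {n : ℕ} {T : RAAG (Gam d)} (h : RepN N n T) : T ≠ 1 := by
  rintro rfl
  obtain ⟨Φ, h1, h2, ⟨ϑ, h3⟩, h4⟩ := h
  apply h3
  have h5 := (h4 (fun z => ϑ (-z / N).toNat)).2 0
  rw [map_one] at h5
  have e : (fun k : ℕ => ϑ (-((0 : ℤ) - N * k) / N).toNat) = ϑ := by
    funext k
    congr 1
    rw [zero_sub, neg_neg, Int.mul_ediv_cancel_left _ (by exact_mod_cast hN.ne')]
    simp
  rw [e] at h5
  rw [← h5]
  rfl

/-- the iterated commutators are preserved by homomorphisms -/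
theorem Tr.map {G G' : Type} [Group G] [Group G'] {ι : Type} {ξ : ι → G} {c : G} (f : G →* G')
    {X : ι → Set ℕ} {n : ℕ} {T : G} {Z : Set ℕ} (h : Tr ξ c X n T Z) :
    Tr (fun i => f (ξ i)) (f c) X n (f T) Z := by
  induction h with
  | base i => exact Tr.base i
  | comm _ _ ih ih' =>
    rw [map_commutatorElement, map_mul, map_mul, map_inv, map_pow]
    exact Tr.comm ih ih'

end Pool.Agent.KS6_76.DGV
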