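import Pool.Agent.KS6_76.DGV.Gen
import Pool.Agent.KS6_76.DGV.Pow

/-!
# Right-angled Artin groups which do not embed into diagram groups, up to finite index
(MP_86f51d_al)
-/

set_option autoImplicit false

open Filter Topology

namespace Pool.Agent.KS6_76.DGV

open H540DG Pool.Agent.W391 Pool.Agent.H599R3.RH Pool.Agent.H599R3.SV
open Pool.Agent.Results.MP_86f51d_al.NotAllEmbed Pool.Agent.Results.MP_86f51d_al.AlmostNoneEmbed
open scoped commutatorElement

/-- The subgroup `H` of the right-angled Artin group contains a power, with positive exponent, of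
every standard generator. -/
def HasPowers {V : Type} {Γ : SimpleGraph V} (H : Subgroup (RAAG Γ)) : Prop :=
  ∀ v, ∃ n : ℕ, 0 < n ∧ rgen Γ v ^ n ∈ H

/-- Some subgroup of finite index of the right-angled Artin group `A(Γ)` embeds into some group
which has a subgroup of finite index that embeds into some diagram group. -/
def VirtuallyEmbedsIntoDiagramGroup {V : Type} (Γ : SimpleGraph V) : Prop :=
  ∃ (H : Subgroup (RAAG Γ)) (G : Type) (_ : Group G) (K : Subgroup G) (D : Type) (_ : Group D),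
    H.FiniteIndex ∧ K.FiniteIndex ∧ IsDiagramGroup D ∧
      (∃ φ : H →* G, Function.Injective φ) ∧ ∃ ψ : K →* D, Function.Injective ψ

theorem Tr.lift {G G' : Type} [Group G] [Group G'] {ι : Type} {ξ : ι → G} {c : G} (f : G →* G')
    {X : ι → Set ℕ} {n : ℕ} {T : G'} {Z : Set ℕ} (h : Tr (fun i => f (ξ i)) (f c) X n T Z) :
    ∃ T₀, f T₀ = T ∧ Tr ξ c X n T₀ Z := by
  induction h with
  | base i => exact ⟨_, rfl, Tr.base i⟩
  | comm _ _ ih ih' =>
    obtain ⟨T₀, rfl, h1⟩ := ih
    obtain ⟨T₁, rfl, h2⟩ := ih'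
    refine ⟨_, ?_, Tr.comm h1 h2⟩
    rw [map_commutatorElement, map_mul, map_mul, map_inv, map_pow]

/-- The right-angled Artin group of an induced subgraph is a subgroup. -/
theorem raag_induced' {V W : Type} {Γ : SimpleGraph V} {Δ : SimpleGraph W} (f : Γ ↪g Δ) :
    ∃ φ : RAAG Γ →* RAAG Δ, Function.Injective φ ∧ ∀ v, φ (rgen Γ v) = rgen Δ (f v) := by
  classical
  let φ : RAAG Γ →* RAAG Δ := rlift (fun v => rgen Δ (f v))
    (fun u v h => rgen_comm (f.map_adj_iff.2 h))
  let back : W → RAAG Γ := fun w => if h : ∃ v, f v = w then rgen Γ h.choose else 1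
  have hback : ∀ v, back (f v) = rgen Γ v := by
    intro v
    have h : ∃ u, f u = f v := ⟨v, rfl⟩
    show (if h : ∃ u, f u = f v then rgen Γ h.choose else 1) = rgen Γ v
    rw [dif_pos h, f.injective h.choose_spec]
  have hcomm : ∀ u v, Δ.Adj u v → back u * back v = back v * back u := by
    intro u v h
    by_cases hu : ∃ u', f u' = u
    · by_cases hv : ∃ v', f v' = v
      · obtain ⟨u', rfl⟩ := hu
        obtain ⟨v', rfl⟩ := hv
        rw [hback, hback]
        exact rgen_comm (f.map_adj_iff.1 h)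
      · have : back v = 1 := dif_neg hv
        rw [this, mul_one, one_mul]
    · have : back u = 1 := dif_neg hu
      rw [this, mul_one, one_mul]
  let ψ : RAAG Δ →* RAAG Γ := rlift back hcomm
  have hid : ψ.comp φ = MonoidHom.id (RAAG Γ) := by
    apply PresentedGroup.ext
    intro v
    show ψ (φ (rgen Γ v)) = rgen Γ v
    have h1 : φ (rgen Γ v) = rgen Δ (f v) := rlift_rgen _ _ v
    have h2 : ψ (rgen Δ (f v)) = back (f v) := rlift_rgen _ _ (f v)
    rw [h1, h2, hback]
  refine ⟨φ, fun x y hxy => ?_, fun v => rlift_rgen _ _ v⟩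
  have h1 : ψ.comp φ x = ψ.comp φ y := congrArg ψ hxy
  rw [hid] at h1
  exact h1

/-- No subgroup which contains powers of all the generators embeds into a diagram group. -/
theorem no_powers {V : Type} {Γ : SimpleGraph V} (f : Gam 27 ↪g Γ) (H : Subgroup (RAAG Γ))
    (hH : HasPowers H) (G : Type) [Group G] (hG : IsDiagramGroup G) (φ : H →* G)
    (hφ : Function.Injective φ) : False := by
  classical
  obtain ⟨A, P, w, -, ⟨e⟩⟩ := hG
  obtain ⟨ι, hι, hιg⟩ := raag_induced' f
  choose n hn hnH using fun v : SpV 27 => hH (f v)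
  have : Fintype (SpV 27) := Fintype.ofFinite _
  set N : ℕ := ∏ v, n v with hN
  have hN0 : 0 < N := Finset.prod_pos (fun v _ => hn v)
  have hmem : ∀ v, ι (gN 27 N v) ∈ H := by
    intro v
    obtain ⟨m, hm⟩ := Finset.dvd_prod_of_mem n (Finset.mem_univ v)
    have : N = n v * m := hm
    rw [gN, map_pow, hιg, this, pow_mul]
    exact H.pow_mem (hnH v) m
  let a : SpV 27 → H := fun v => ⟨ι (gN 27 N v), hmem v⟩
  have e' : G ≃* Dg P w := e.trans (dgEquiv P w)
  refine no_embedding_gen (G₀ := H) a ?_ ?_ (w := w)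
    ((Dg P w).subtype.comp (e'.toMonoidHom.comp φ)) ?_ ?_
  · intro u v huv
    apply Subtype.ext
    show ι (gN 27 N u) * ι (gN 27 N v) = ι (gN 27 N v) * ι (gN 27 N u)
    rw [← map_mul, ← map_mul]
    congr 1
    exact ((show Commute (rgen (Gam 27) u) (rgen (Gam 27) v) from rgen_comm huv).pow_pow N N).eq
  · intro X k T Z hT
    have h1 := Tr.map H.subtype hT
    have h2 : Tr (fun i => ι (xiN 27 N i)) (ι (gN 27 N .c)) X k (H.subtype T) Z := by
      have e1 : (fun i => H.subtype ⁅a (.x i), a (.y i)⁆) = fun i => ι (xiN 27 N i) := by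
        funext i
        rw [map_commutatorElement, xiN, map_commutatorElement]
        rfl
      rw [e1] at h1
      exact h1
    obtain ⟨T₀, hT₀, h3⟩ := Tr.lift ι h2
    rintro rfl
    rw [map_one] at hT₀
    exact (TrN.rep hN0 h3).ne hN0 (hι (by rw [hT₀, map_one]))
  · intro t
    exact (e' (φ t)).2
  · exact (Subtype.val_injective.comp e'.injective).comp hφ

theorem no_virtual {V : Type} {Γ : SimpleGraph V} (f : Gam 27 ↪g Γ) :
    ¬ VirtuallyEmbedsIntoDiagramGroup Γ := by
  rintro ⟨H, G, _, K, D, _, hH, hK, hD, ⟨φ, hφ⟩, ψ, hψ⟩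
  have hsub : Function.Injective H.subtype := Subtype.val_injective
  let L : Subgroup H := K.comap φ
  let eL : L ≃* L.map H.subtype := L.equivMapOfInjective H.subtype hsub
  let ρ : L →* K := (φ.comp L.subtype).codRestrict K (fun x => x.2)
  have hρ : Function.Injective ρ := by
    intro x y hxy
    have h1 := congrArg Subtype.val hxy
    exact Subtype.ext (hφ h1)
  refine no_powers f (L.map H.subtype) ?_ D hD ((ψ.comp ρ).comp eL.symm.toMonoidHom)
    ((hψ.comp hρ).comp eL.symm.injective)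
  intro v
  obtain ⟨n, hn, -, hnH⟩ := Subgroup.exists_pow_mem_of_index_ne_zero hH.index_ne_zero (rgen Γ v)
  obtain ⟨m, hm, -, hmK⟩ := Subgroup.exists_pow_mem_of_index_ne_zero hK.index_ne_zero
    (φ ⟨rgen Γ v ^ n, hnH⟩)
  refine ⟨n * m, Nat.mul_pos hn hm, ?_⟩
  rw [Subgroup.mem_map]
  refine ⟨⟨rgen Γ v ^ n, hnH⟩ ^ m, ?_, ?_⟩
  · show φ (_ ^ m) ∈ K
    rw [map_pow]
    exact hmK
  · rw [map_pow, pow_mul]
    rfl

theorem virtual_proportion : Tendsto (fun n : ℕ =>
      (Nat.card {Γ : SimpleGraph (Fin n) // VirtuallyEmbedsIntoDiagramGroup Γ} : ℝ) /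
        Nat.card (SimpleGraph (Fin n))) atTop (𝓝 0) := by
  have : Nonempty (SpV 27) := ⟨.c⟩
  exact proportion (Gam 27) (fun n Γ => VirtuallyEmbedsIntoDiagramGroup Γ)
    (fun n Γ ⟨f⟩ => no_virtual f)

end Pool.Agent.KS6_76.DGV
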